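import Pool.Agent.F5S.Stmts

/-!
# F5S, rows ADV and LPW: the two weights
-/

set_option autoImplicit false

open MeasureTheory Filter Topology

namespace Pool.Agent.F5S.H59

open Pool.Agent.BTL Pool.Agent.F5S

theorem cl_nonneg (u : ℝ) : 0 ≤ cl u := le_max_left _ _

theorem cl_le_one (u : ℝ) : cl u ≤ 1 := max_le zero_le_one (min_le_left _ _)

theorem cl_of_nonpos {u : ℝ} (h : u ≤ 0) : cl u = 0 := by
  unfold cl
  rw [min_eq_right (by linarith), max_eq_left h]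

theorem cl_of_one_le {u : ℝ} (h : 1 ≤ u) : cl u = 1 := by
  unfold cl
  rw [min_eq_left h, max_eq_right zero_le_one]

theorem pos_of_cl {u : ℝ} (h : cl u ≠ 0) : 0 < u := by
  by_contra hc
  exact h (cl_of_nonpos (not_lt.1 hc))

theorem cl_lip (u v : ℝ) : |cl u - cl v| ≤ |u - v| := by
  unfold cl
  calc |max 0 (min 1 u) - max 0 (min 1 v)| ≤ |min 1 u - min 1 v| := by
        rw [max_comm 0, max_comm 0]
        exact abs_max_sub_max_le_abs _ _ _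
    _ ≤ |u - v| := by
        rw [min_comm 1 u, min_comm 1 v]
        have h1 := abs_min_sub_min_le_max u 1 v 1
        simpa using h1

theorem cont_cl : Continuous cl := by unfold cl; fun_prop

theorem cont_en : Continuous en := by unfold en nr; fun_prop

theorem en_nonneg (x : ℝ × ℝ) : 0 ≤ en x := Real.sqrt_nonneg _

theorem en_sq (x : ℝ × ℝ) : en x ^ 2 = nr x := Real.sq_sqrt (nr_nonneg x)

theorem nr_le_of_en {x : ℝ × ℝ} {R : ℝ} (h : en x ≤ R) : nr x ≤ R ^ 2 := by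
  rw [← en_sq]
  exact pow_le_pow_left₀ (en_nonneg x) h 2

theorem en_le_of_nr {x : ℝ × ℝ} {R : ℝ} (hR : 0 ≤ R) (h : nr x ≤ R ^ 2) : en x ≤ R := by
  unfold en
  rw [Real.sqrt_le_left hR]
  exact h

theorem en_add_le (x y : ℝ × ℝ) : en (x + y) ≤ en x + en y := by
  apply en_le_of_nr (add_nonneg (en_nonneg x) (en_nonneg y))
  have h1 : x.1 * y.1 + x.2 * y.2 ≤ en x * en y := by
    apply le_of_abs_le
    rw [← Real.sqrt_sq_eq_abs]
    rw [Real.sqrt_le_left (mul_nonneg (en_nonneg x) (en_nonneg y)), mul_pow, en_sq, en_sq]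
    unfold nr
    nlinarith [sq_nonneg (x.1 * y.2 - x.2 * y.1)]
  have h2 : nr (x + y) = nr x + nr y + 2 * (x.1 * y.1 + x.2 * y.2) := by
    unfold nr
    simp only [Prod.fst_add, Prod.snd_add]
    ring
  rw [h2, ← en_sq x, ← en_sq y]
  nlinarith

theorem en_neg (x : ℝ × ℝ) : en (-x) = en x := by
  unfold en nr
  simp

theorem en_sub_abs (x y : ℝ × ℝ) : |en x - en y| ≤ en (x - y) := by
  have h1 := en_add_le (x - y) y
  have h2 := en_add_le (y - x) x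
  have h3 : en (y - x) = en (x - y) := by rw [← en_neg, neg_sub]
  rw [sub_add_cancel] at h1 h2
  rw [abs_le]
  constructor <;> linarith

theorem en_le_norm (x : ℝ × ℝ) : en x ≤ 1.42 * ‖x‖ := by
  apply en_le_of_nr (by positivity)
  have h1 : |x.1| ≤ ‖x‖ := norm_fst_le x
  have h2 : |x.2| ≤ ‖x‖ := norm_snd_le x
  have h3 : x.1 ^ 2 ≤ ‖x‖ ^ 2 := by
    rw [← sq_abs]; exact pow_le_pow_left₀ (abs_nonneg _) h1 2
  have h4 : x.2 ^ 2 ≤ ‖x‖ ^ 2 := by
    rw [← sq_abs]; exact pow_le_pow_left₀ (abs_nonneg _) h2 2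
  unfold nr
  nlinarith [sq_nonneg ‖x‖]

theorem dr_le (x y : ℝ × ℝ) : |dr x y| ≤ en x * en y := by
  rw [← Real.sqrt_sq_eq_abs,
    Real.sqrt_le_left (mul_nonneg (en_nonneg x) (en_nonneg y)), mul_pow, en_sq, en_sq]
  unfold nr dr
  nlinarith [sq_nonneg (x.1 * y.1 + x.2 * y.2)]

theorem cont_Wd (T K : ℝ) : Continuous (Wd T K) := by
  unfold Wd dr
  have := cont_cl
  fun_prop

theorem cont_Wn (R T K : ℝ) : Continuous (Wn R T K) := by
  unfold Wn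
  have := cont_cl
  have := cont_en
  fun_prop

theorem prod3_bd {a b c : ℝ} (ha : 0 ≤ a ∧ a ≤ 1) (hb : 0 ≤ b ∧ b ≤ 1) (hc : 0 ≤ c ∧ c ≤ 1) :
    0 ≤ a * (b * c) ∧ a * (b * c) ≤ 1 := by
  have h1 : 0 ≤ b * c := mul_nonneg hb.1 hc.1
  have h2 : b * c ≤ 1 := mul_le_one₀ hb.2 hc.1 hc.2
  exact ⟨mul_nonneg ha.1 h1, mul_le_one₀ ha.2 h1 h2⟩

theorem cl_bd (u : ℝ) : 0 ≤ cl u ∧ cl u ≤ 1 := ⟨cl_nonneg u, cl_le_one u⟩

theorem Wn_bd (R T K : ℝ) (c : R6) : 0 ≤ Wn R T K c ∧ Wn R T K c ≤ 1 :=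
  prod3_bd (cl_bd _) (cl_bd _) (cl_bd _)

theorem Wd_bd (T K : ℝ) (c : R6) : 0 ≤ Wd T K c ∧ Wd T K c ≤ 1 :=
  prod3_bd (cl_bd _) (cl_bd _) (cl_bd _)

theorem WW_bd (R T K : ℝ) (c : R6) : 0 ≤ Wn R T K c * Wd T K c ∧ Wn R T K c * Wd T K c ≤ 1 :=
  ⟨mul_nonneg (Wn_bd R T K c).1 (Wd_bd T K c).1,
    mul_le_one₀ (Wn_bd R T K c).2 (Wd_bd T K c).1 (Wd_bd T K c).2⟩

theorem Wn_ne {R T K : ℝ} (hT : 0 < T) (hK : 0 < K) {c : R6} (h : Wn R T K c ≠ 0) :
    en c.1 < R ∧ en c.2.1 < R ∧ en c.2.2 < R := by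
  unfold Wn at h
  have h1 := left_ne_zero_of_mul h
  have h2 := left_ne_zero_of_mul (right_ne_zero_of_mul h)
  have h3 := right_ne_zero_of_mul (right_ne_zero_of_mul h)
  have key : ∀ x, cl ((R - en x) * K / T) ≠ 0 → en x < R := by
    intro x hx
    have h4 := pos_of_cl hx
    rw [div_pos_iff_of_pos_right hT, mul_pos_iff_of_pos_right hK] at h4
    linarith
  exact ⟨key _ h1, key _ h2, key _ h3⟩

theorem Wd_ne {T K : ℝ} (hT : 0 < T) (hK : 0 < K) {c : R6} (h : Wd T K c ≠ 0) :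
    dge (T ^ 2 / K) c := by
  unfold Wd at h
  have h1 := left_ne_zero_of_mul h
  have h2 := left_ne_zero_of_mul (right_ne_zero_of_mul h)
  have h3 := right_ne_zero_of_mul (right_ne_zero_of_mul h)
  have key : ∀ x : ℝ, cl (x * K / T ^ 2 - 1) ≠ 0 → T ^ 2 / K ≤ x := by
    intro x hx
    have h4 := pos_of_cl hx
    have h5 : 1 < x * K / T ^ 2 := by linarith
    rw [lt_div_iff₀ (by positivity), one_mul] at h5
    rw [div_le_iff₀ hK]
    exact h5.le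
  exact ⟨key _ h1, key _ h2, key _ h3⟩

theorem Wd_one {T K : ℝ} (hT : 0 < T) (hK : 0 < K) {c : R6} (h : dge (2 * T ^ 2 / K) c) :
    Wd T K c = 1 := by
  obtain ⟨h1, h2, h3⟩ := h
  have key : ∀ x : ℝ, 2 * T ^ 2 / K ≤ x → cl (x * K / T ^ 2 - 1) = 1 := by
    intro x hx
    apply cl_of_one_le
    rw [div_le_iff₀ hK] at hx
    have : 2 ≤ x * K / T ^ 2 := by
      rw [le_div_iff₀ (by positivity)]
      exact hx
    linarith
  unfold Wd
  rw [key _ h1, key _ h2, key _ h3]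
  norm_num

theorem Wn_one {R T K : ℝ} (hT : 0 < T) (hK : 0 < K) {c : R6} (hR : 0 ≤ R - T / K)
    (h : nle (R - T / K) c) : Wn R T K c = 1 := by
  obtain ⟨h1, h2, h3⟩ := h
  have key : ∀ x : ℝ × ℝ, nr x ≤ (R - T / K) ^ 2 → cl ((R - en x) * K / T) = 1 := by
    intro x hx
    apply cl_of_one_le
    have h4 := en_le_of_nr hR hx
    have h5 : T / K ≤ R - en x := by linarith
    rw [div_le_iff₀ hK] at h5
    rw [le_div_iff₀ hT, one_mul]
    exact h5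
  unfold Wn
  rw [key _ h1, key _ h2, key _ h3]
  norm_num

theorem adv : ADVStmt := by
  intro T L K hT hL hK hLK
  have hT0 : 0 < T := by linarith
  have hK0 : 0 < K := by linarith
  have hTK : T / K ≤ T / 22 := div_le_div_of_nonneg_left hT0.le (by norm_num) hK
  have hTK0 : 0 < T / K := by positivity
  have hL2 : L ≤ T / 352 := by
    rw [le_div_iff₀ (by norm_num)]
    nlinarith
  have hKK : T ^ 2 / K ^ 2 ≤ T ^ 2 / K := by
    apply div_le_div_of_nonneg_left (by positivity) hK0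
    nlinarith
  have mono : ∀ {R R' : ℝ} {c : R6}, 0 ≤ R → R ≤ R' → nle R c → nle R' c := by
    intro R R' c h0 h ⟨a, b, d⟩
    have := pow_le_pow_left₀ h0 h 2
    exact ⟨a.trans this, b.trans this, d.trans this⟩
  have mono' : ∀ {D D' : ℝ} {c : R6}, D' ≤ D → dge D c → dge D' c := by
    intro D D' c h ⟨a, b, d⟩
    exact ⟨h.trans a, h.trans b, h.trans d⟩
  refine ⟨⟨?_, ?_⟩, ?_, ?_, ?_, ?_, ?_, ?_⟩
  · exact (cont_Wn _ _ _).mul (cont_Wd _ _)
  · exact (cont_Wn _ _ _).mul (cont_Wd _ _)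
  · exact fun c => WW_bd _ _ _ c
  · exact fun c => WW_bd _ _ _ c
  · intro c hc
    obtain ⟨a, b, d⟩ := Wn_ne hT0 hK0 (left_ne_zero_of_mul hc)
    have h2 := Wd_ne hT0 hK0 (right_ne_zero_of_mul hc)
    have h1 : nle (T + 2 * L + T / K) c :=
      ⟨nr_le_of_en a.le, nr_le_of_en b.le, nr_le_of_en d.le⟩
    exact ⟨⟨mono (by positivity) (by linarith) h1, mono' hKK h2⟩, h1⟩
  · intro c hc
    obtain ⟨a, b, d⟩ := Wn_ne hT0 hK0 (left_ne_zero_of_mul hc)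
    have h2 := Wd_ne hT0 hK0 (right_ne_zero_of_mul hc)
    have h1 : nle (T - 2 * L) c := ⟨nr_le_of_en a.le, nr_le_of_en b.le, nr_le_of_en d.le⟩
    exact ⟨⟨mono (by linarith) (by linarith) h1, mono' hKK h2⟩, h1, h2⟩
  · intro c h1 h2
    unfold Wp
    rw [Wd_one hT0 hK0 h2, Wn_one hT0 hK0 (by linarith) (by
      rw [add_sub_cancel_right]; exact h1), one_mul]
  · intro c h1 h2
    unfold Wm
    rw [Wd_one hT0 hK0 h2, Wn_one hT0 hK0 (by linarith) h1, one_mul]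

/-- products of three numbers in `[0, 1]` -/
theorem prod3_lip {a b c a' b' c' D : ℝ} (ha : |a - a'| ≤ D) (hb : |b - b'| ≤ D)
    (hc : |c - c'| ≤ D) (h1 : 0 ≤ a ∧ a ≤ 1) (h2 : 0 ≤ b ∧ b ≤ 1) (h3 : 0 ≤ c ∧ c ≤ 1)
    (h1' : 0 ≤ a' ∧ a' ≤ 1) (h2' : 0 ≤ b' ∧ b' ≤ 1) (h3' : 0 ≤ c' ∧ c' ≤ 1) :
    |a * (b * c) - a' * (b' * c')| ≤ 3 * D := by
  have e : a * (b * c) - a' * (b' * c') =
      (a - a') * (b * c) + a' * c * (b - b') + a' * b' * (c - c') := by ring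
  have key : ∀ {x y : ℝ}, 0 ≤ y → y ≤ 1 → |x| ≤ D → |x * y| ≤ D := by
    intro x y h0 h1 hx
    rw [abs_mul, abs_of_nonneg h0]
    calc |x| * y ≤ |x| * 1 := mul_le_mul_of_nonneg_left h1 (abs_nonneg _)
      _ ≤ D := by rw [mul_one]; exact hx
  have k1 := key (mul_nonneg h2.1 h3.1) (mul_le_one₀ h2.2 h3.1 h3.2) ha
  have k2 := key (mul_nonneg h1'.1 h3.1) (mul_le_one₀ h1'.2 h3.1 h3.2) hb
  have k3 := key (mul_nonneg h1'.1 h2'.1) (mul_le_one₀ h1'.2 h2'.1 h2'.2) hc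
  rw [mul_comm] at k2 k3
  rw [e]
  have t1 := abs_add_le ((a - a') * (b * c) + a' * c * (b - b')) (a' * b' * (c - c'))
  have t2 := abs_add_le ((a - a') * (b * c)) (a' * c * (b - b'))
  linarith

theorem Wn_lip {R T K : ℝ} (hT : 0 < T) (hK : 0 < K) (c c' : R6) :
    |Wn R T K c - Wn R T K c'| ≤ 3 * (1.42 * (K / T) * ‖c - c'‖) := by
  have key : ∀ x x' : ℝ × ℝ, ‖x - x'‖ ≤ ‖c - c'‖ →
      |cl ((R - en x) * K / T) - cl ((R - en x') * K / T)| ≤ 1.42 * (K / T) * ‖c - c'‖ := by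
    intro x x' hx
    refine (cl_lip _ _).trans ?_
    have e : (R - en x) * K / T - (R - en x') * K / T = -((K / T) * (en x - en x')) := by ring
    rw [e, abs_neg, abs_mul, abs_of_pos (by positivity : 0 < K / T)]
    have h1 := (en_sub_abs x x').trans (en_le_norm _)
    have h2 : |en x - en x'| ≤ 1.42 * ‖c - c'‖ := h1.trans (by linarith)
    calc K / T * |en x - en x'| ≤ K / T * (1.42 * ‖c - c'‖) :=
          mul_le_mul_of_nonneg_left h2 (by positivity)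
      _ = _ := by ring
  have n1 : ‖c.1 - c'.1‖ ≤ ‖c - c'‖ := norm_fst_le (c - c')
  have n2 : ‖c.2 - c'.2‖ ≤ ‖c - c'‖ := norm_snd_le (c - c')
  have n3 : ‖c.2.1 - c'.2.1‖ ≤ ‖c.2 - c'.2‖ := norm_fst_le (c.2 - c'.2)
  have n4 : ‖c.2.2 - c'.2.2‖ ≤ ‖c.2 - c'.2‖ := norm_snd_le (c.2 - c'.2)
  exact prod3_lip (key _ _ n1) (key _ _ (n3.trans n2)) (key _ _ (n4.trans n2)) (cl_bd _) (cl_bd _)
    (cl_bd _) (cl_bd _) (cl_bd _) (cl_bd _)

theorem Wd_lip {T K : ℝ} (hT : 0 < T) (hK : 0 < K) (c c' : R6)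
    (h1 : en c.1 ≤ 2 * T ∧ en c.2.1 ≤ 2 * T ∧ en c.2.2 ≤ 2 * T)
    (h2 : en c'.1 ≤ 2 * T ∧ en c'.2.1 ≤ 2 * T ∧ en c'.2.2 ≤ 2 * T) :
    |Wd T K c - Wd T K c'| ≤ 3 * (4 * 1.42 * (K / T) * ‖c - c'‖) := by
  have key : ∀ x x' y y' : ℝ × ℝ, ‖x - x'‖ ≤ ‖c - c'‖ → ‖y - y'‖ ≤ ‖c - c'‖ → en y ≤ 2 * T →
      en x' ≤ 2 * T →
      |cl (|dr x y| * K / T ^ 2 - 1) - cl (|dr x' y'| * K / T ^ 2 - 1)| ≤
        4 * 1.42 * (K / T) * ‖c - c'‖ := by
    intro x x' y y' hx hy ey ex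
    refine (cl_lip _ _).trans ?_
    have e : (|dr x y| * K / T ^ 2 - 1) - (|dr x' y'| * K / T ^ 2 - 1) =
        (K / T ^ 2) * (|dr x y| - |dr x' y'|) := by ring
    rw [e, abs_mul, abs_of_pos (by positivity : 0 < K / T ^ 2)]
    have b1 : |(|dr x y| - |dr x' y'|)| ≤ |dr x y - dr x' y'| := abs_abs_sub_abs_le_abs_sub _ _
    have b2 : dr x y - dr x' y' = dr (x - x') y + dr x' (y - y') := by
      unfold dr
      simp only [Prod.fst_sub, Prod.snd_sub]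
      ring
    have b3 : |dr (x - x') y| ≤ 1.42 * ‖c - c'‖ * (2 * T) := by
      refine (dr_le _ _).trans ?_
      have := en_le_norm (x - x')
      exact mul_le_mul (this.trans (by linarith)) ey (en_nonneg _) (by positivity)
    have b4 : |dr x' (y - y')| ≤ 2 * T * (1.42 * ‖c - c'‖) := by
      refine (dr_le _ _).trans ?_
      have := en_le_norm (y - y')
      exact mul_le_mul ex (this.trans (by linarith)) (en_nonneg _) (by positivity)
    have b5 : |(|dr x y| - |dr x' y'|)| ≤ 4 * 1.42 * T * ‖c - c'‖ := by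
      rw [b2] at b1
      have := abs_add_le (dr (x - x') y) (dr x' (y - y'))
      linarith
    calc K / T ^ 2 * |(|dr x y| - |dr x' y'|)| ≤ K / T ^ 2 * (4 * 1.42 * T * ‖c - c'‖) :=
          mul_le_mul_of_nonneg_left b5 (by positivity)
      _ = _ := by
          field_simp
  have n1 : ‖c.1 - c'.1‖ ≤ ‖c - c'‖ := norm_fst_le (c - c')
  have n2 : ‖c.2 - c'.2‖ ≤ ‖c - c'‖ := norm_snd_le (c - c')
  have n3 : ‖c.2.1 - c'.2.1‖ ≤ ‖c.2 - c'.2‖ := norm_fst_le (c.2 - c'.2)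
  have n4 : ‖c.2.2 - c'.2.2‖ ≤ ‖c.2 - c'.2‖ := norm_snd_le (c.2 - c'.2)
  obtain ⟨p1, p2, p3⟩ := h1
  obtain ⟨q1, q2, q3⟩ := h2
  exact prod3_lip (key _ _ _ _ n1 (n3.trans n2) p2 q1) (key _ _ _ _ n1 (n4.trans n2) p3 q1)
    (key _ _ _ _ (n3.trans n2) (n4.trans n2) p3 q2) (cl_bd _) (cl_bd _)
    (cl_bd _) (cl_bd _) (cl_bd _) (cl_bd _)

theorem WW_lip {R T K : ℝ} (hT : 0 < T) (hK : 22 ≤ K) (hR : R ≤ 2 * T) (c c' : R6) :
    |Wn R T K c * Wd T K c - Wn R T K c' * Wd T K c'| ≤ K ^ 2 / T * ‖c - c'‖ := by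
  have hK0 : 0 < K := by linarith
  have hnn : 0 ≤ ‖c - c'‖ := norm_nonneg _
  have l1 := Wn_lip (R := R) hT hK0 c c'
  have big : 3 * (1.42 * (K / T) * ‖c - c'‖) + 3 * (4 * 1.42 * (K / T) * ‖c - c'‖) ≤
      K ^ 2 / T * ‖c - c'‖ := by
    have e : 3 * (1.42 * (K / T) * ‖c - c'‖) + 3 * (4 * 1.42 * (K / T) * ‖c - c'‖) =
        21.3 * (K / T * ‖c - c'‖) := by ring
    have e2 : K ^ 2 / T * ‖c - c'‖ = K * (K / T * ‖c - c'‖) := by ring
    rw [e, e2]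
    have : 0 ≤ K / T * ‖c - c'‖ := by positivity
    nlinarith
  have small : 0 ≤ 3 * (4 * 1.42 * (K / T) * ‖c - c'‖) := by positivity
  by_cases h0 : Wn R T K c = 0
  · rw [h0, zero_mul, zero_sub, abs_neg]
    rw [h0, zero_sub, abs_neg] at l1
    rw [abs_of_nonneg (WW_bd R T K c').1]
    rw [abs_of_nonneg (Wn_bd R T K c').1] at l1
    have : Wn R T K c' * Wd T K c' ≤ Wn R T K c' * 1 :=
      mul_le_mul_of_nonneg_left (Wd_bd T K c').2 (Wn_bd R T K c').1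
    linarith
  by_cases h0' : Wn R T K c' = 0
  · rw [h0', zero_mul, sub_zero]
    rw [h0', sub_zero] at l1
    rw [abs_of_nonneg (WW_bd R T K c).1]
    rw [abs_of_nonneg (Wn_bd R T K c).1] at l1
    have : Wn R T K c * Wd T K c ≤ Wn R T K c * 1 :=
      mul_le_mul_of_nonneg_left (Wd_bd T K c).2 (Wn_bd R T K c).1
    linarith
  obtain ⟨a, b, d⟩ := Wn_ne hT hK0 h0
  obtain ⟨a', b', d'⟩ := Wn_ne hT hK0 h0'
  have l2 := Wd_lip hT hK0 c c' ⟨by linarith, by linarith, by linarith⟩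
    ⟨by linarith, by linarith, by linarith⟩
  have e : Wn R T K c * Wd T K c - Wn R T K c' * Wd T K c' =
      (Wn R T K c - Wn R T K c') * Wd T K c + Wn R T K c' * (Wd T K c - Wd T K c') := by ring
  rw [e]
  have t := abs_add_le ((Wn R T K c - Wn R T K c') * Wd T K c)
    (Wn R T K c' * (Wd T K c - Wd T K c'))
  have t1 : |(Wn R T K c - Wn R T K c') * Wd T K c| ≤ |Wn R T K c - Wn R T K c'| := by
    rw [abs_mul, abs_of_nonneg (Wd_bd T K c).1]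
    calc _ ≤ |Wn R T K c - Wn R T K c'| * 1 :=
          mul_le_mul_of_nonneg_left (Wd_bd T K c).2 (abs_nonneg _)
      _ = _ := mul_one _
  have t2 : |Wn R T K c' * (Wd T K c - Wd T K c')| ≤ |Wd T K c - Wd T K c'| := by
    rw [abs_mul, abs_of_nonneg (Wn_bd R T K c').1]
    calc _ ≤ 1 * |Wd T K c - Wd T K c'| :=
          mul_le_mul_of_nonneg_right (Wn_bd R T K c').2 (abs_nonneg _)
      _ = _ := one_mul _
  linarith

theorem lpw : LPWStmt := by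
  intro T L K hT hL hK hLK
  have hT0 : 0 < T := by linarith
  have hK0 : 0 < K := by linarith
  have hTK : T / K ≤ T / 22 := div_le_div_of_nonneg_left hT0.le (by norm_num) hK
  have hTK0 : 0 < T / K := by positivity
  have hL2 : L ≤ T / 352 := by
    rw [le_div_iff₀ (by norm_num)]
    nlinarith
  constructor
  · intro c c'
    exact WW_lip hT0 hK (by linarith) c c'
  · intro c c'
    exact WW_lip hT0 hK (by linarith) c c'

end Pool.Agent.F5S.H59
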