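import Pool.Agent.F5S.Stmts

/-!
# F5S, rows UPS and LOS: the sandwich
-/

set_option autoImplicit false

open MeasureTheory Filter Topology

namespace Pool.Agent.F5S.H59

open Pool.Agent.BTL Pool.Agent.F5S

theorem dr_rc (x y : ℤ × ℤ) : dr (rc x) (rc y) = (dt x y : ℝ) := by
  unfold dr rc dt
  push_cast
  ring

theorem dt_self (x : ℤ × ℤ) : dt x x = 0 := by unfold dt; ring

theorem dt_neg_self (y : ℤ × ℤ) : dt (-y) y = 0 := by
  unfold dt
  simp only [Prod.fst_neg, Prod.snd_neg]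
  ring

theorem ne_of_dt {x y : ℤ × ℤ} (h : 0 < |dr (rc x) (rc y)|) : x ≠ y ∧ x ≠ -y := by
  rw [dr_rc] at h
  constructor
  · rintro rfl
    rw [dt_self] at h
    simp at h
  · rintro rfl
    rw [dt_neg_self] at h
    simp at h

theorem trip_sub {T : ℝ} (hT : 1 ≤ T) :
    trip T ⊆ ball (4 * T) ×ˢ (ball (4 * T) ×ˢ ball (4 * T)) := by
  intro t ht
  rw [mem_trip] at ht
  obtain ⟨⟨h1, h2, h3⟩, -⟩ := ht
  have hs : ball T ⊆ ball (4 * T) := ball_mono (by linarith) (by linarith)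
  rw [Finset.mem_product, Finset.mem_product]
  exact ⟨hs (mem_ball.2 h1), hs (mem_ball.2 h2), hs (mem_ball.2 h3)⟩

theorem exch (T L e : ℝ) (W : R6 → ℝ) (G : Finset (ℤ × ℤ)) (A : ℝ × ℝ × ℝ) :
    e⁻¹ * ∑ g ∈ G, SW T L e W (sc e g) A =
      ∑ t ∈ ball (4 * T) ×ˢ (ball (4 * T) ×ˢ ball (4 * T)),
        Wb L W (r3 t) * (e⁻¹ * ∑ g ∈ G, kk e (dif A t - sc e g)) := by
  unfold SW
  rw [Finset.sum_comm, Finset.mul_sum]
  refine Finset.sum_congr rfl fun t _ => ?_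
  rw [← Finset.mul_sum]
  ring

theorem ups (hK : KKFStmt) (hW : WBFStmt) (hG : GEOStmt) (hA : ADVStmt) : UPSStmt := by
  classical
  intro T L K hT hL hK22 hLK e he a b c d G hwnd A
  obtain ⟨⟨cp, -⟩, bp, -, -, -, one, -⟩ := hA T L K hT hL hK22 hLK
  obtain ⟨-, w1, w2, -⟩ := hW L (Wp T L K) hL cp.measurable bp
  rw [exch]
  have hK0 : 0 < K := by linarith
  have e0 : 0 ≤ e⁻¹ := inv_nonneg.2 he.le
  set F : Z6 → ℝ := fun t => Wb L (Wp T L K) (r3 t) * (e⁻¹ * ∑ g ∈ G, kk e (dif A t - sc e g))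
    with hF
  have hF0 : ∀ t, 0 ≤ F t := fun t => mul_nonneg (w1 _).1
    (mul_nonneg e0 (Finset.sum_nonneg fun g _ => ((hK e he).1 _).1))
  have h1 : NT T a b c d A = ∑ t ∈ (trip T).filter (fun t => gd T (K / 3) t.1 t.2.1 t.2.2),
      wnd a b c d (dif A t) + NB T (K / 3) a b c d A := by
    unfold NT NB
    rw [Finset.sum_filter_add_sum_filter_not]
  rw [h1]
  refine add_le_add_left ?_ _
  calc ∑ t ∈ (trip T).filter (fun t => gd T (K / 3) t.1 t.2.1 t.2.2), wnd a b c d (dif A t)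
      ≤ ∑ t ∈ (trip T).filter (fun t => gd T (K / 3) t.1 t.2.1 t.2.2), F t := by
        refine Finset.sum_le_sum fun t ht => ?_
        rw [Finset.mem_filter, mem_trip] at ht
        obtain ⟨⟨⟨n1, n2, n3⟩, -⟩, g1, g2, g3⟩ := ht
        have hn : nlt T (r3 t) := ⟨n1, n2, n3⟩
        have e3 : T ^ 2 / (K / 3) = 3 * T ^ 2 / K := by
          field_simp
        have hd : dge (3 * T ^ 2 / K) (r3 t) := by
          unfold dge r3
          simp only [dr_rc]
          rw [← e3]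
          exact ⟨g1, g2, g3⟩
        have h2 : Wb L (Wp T L K) (r3 t) = 1 := by
          apply w2
          intro c' hc'
          obtain ⟨p1, p2⟩ := (hG T L K hT hL hK22 hLK c' (r3 t) hc').1 hn hd
          exact one c' p1 p2
        simp only [hF]
        rw [h2, one_mul]
        exact hwnd _
    _ ≤ ∑ t ∈ ball (4 * T) ×ˢ (ball (4 * T) ×ˢ ball (4 * T)), F t := by
        refine Finset.sum_le_sum_of_subset_of_nonneg ?_ fun t _ _ => hF0 t
        exact (Finset.filter_subset _ _).trans (trip_sub hT)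

theorem los (hK : KKFStmt) (hW : WBFStmt) (hG : GEOStmt) (hA : ADVStmt) : LOSStmt := by
  classical
  intro T L K hT hL hK22 hLK e he a b c d G hwnd A
  obtain ⟨⟨-, cm⟩, -, bm, -, supp, -, -⟩ := hA T L K hT hL hK22 hLK
  obtain ⟨-, w1, -, w3⟩ := hW L (Wm T L K) hL cm.measurable bm
  rw [exch]
  have e0 : 0 ≤ e⁻¹ := inv_nonneg.2 he.le
  set F : Z6 → ℝ := fun t => Wb L (Wm T L K) (r3 t) * (e⁻¹ * ∑ g ∈ G, kk e (dif A t - sc e g))
    with hF
  have h0 : ∀ t, t ∉ trip T → F t = 0 := by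
    intro t ht
    have h1 : Wb L (Wm T L K) (r3 t) = 0 := by
      by_contra hne
      obtain ⟨c', hc', hn⟩ := w3 _ hne
      obtain ⟨-, n1, d1⟩ := supp c' hc'
      obtain ⟨q1, q2, q3, q4⟩ := (hG T L K hT hL hK22 hLK c' (r3 t) hn).2.1 n1 d1
      apply ht
      rw [mem_trip]
      obtain ⟨a1, a2⟩ := ne_of_dt q2
      obtain ⟨a3, a4⟩ := ne_of_dt q3
      obtain ⟨a5, a6⟩ := ne_of_dt q4
      exact ⟨q1, a1, a2, a3, a4, a5, a6⟩
    simp only [hF]
    rw [h1, zero_mul]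
  have h1 : ∑ t ∈ ball (4 * T) ×ˢ (ball (4 * T) ×ˢ ball (4 * T)), F t = ∑ t ∈ trip T, F t := by
    symm
    exact Finset.sum_subset (trip_sub hT) fun t _ ht => h0 t ht
  rw [h1]
  unfold NT
  refine Finset.sum_le_sum fun t _ => ?_
  have h2 : 0 ≤ e⁻¹ * ∑ g ∈ G, kk e (dif A t - sc e g) :=
    mul_nonneg e0 (Finset.sum_nonneg fun g _ => ((hK e he).1 _).1)
  calc F t ≤ 1 * (e⁻¹ * ∑ g ∈ G, kk e (dif A t - sc e g)) :=
        mul_le_mul_of_nonneg_right (w1 _).2 h2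
    _ ≤ _ := by rw [one_mul]; exact hwnd _

end Pool.Agent.F5S.H59
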